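import Pool.Agent.Helper85.QT.St3

/-!
# Project QT (stage 2 of QD, MP_d112a4_gt): LIC (the sum over the lifts)
-/

set_option autoImplicit false

open MeasureTheory Matrix Set Topology
open scoped ENNReal ComplexConjugate

namespace Pool.Agent.Helper82.QT

open Pool.Agent.Helper85.QT Pool.Agent.Helper86.QA

private theorem sum_hv (hHME : StHME) {ι : Type} (S : ι → Set ℂ) (hS : ∀ i, MeasurableSet (S i))
    (hd : ∀ i j, i ≠ j → Disjoint (S i) (S j)) (x : Pt) (hx : x ∈ up) :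
    ∑' i, ENNReal.ofReal (hv (S i) x) ≤ 1 := by
  obtain ⟨h1, -⟩ := hHME
  have hpi := Real.pi_pos
  set ν : Measure ℂ := (volume : Measure ℂ).withDensity
    (fun ξ => ENNReal.ofReal ((1 / Real.pi) * pp x ξ ^ 2)) with hν
  have hval : ∀ B : Set ℂ, MeasurableSet B → ENNReal.ofReal (hv B x) = ν B := by
    intro B hB
    rw [hν, withDensity_apply _ hB]
    unfold hv
    rw [← integral_const_mul]
    apply ofReal_integral_eq_lintegral_ofReal
    · exact ((h1 B x hB hx).1).const_mul _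
    · exact Filter.Eventually.of_forall (fun ξ => by positivity)
  calc ∑' i, ENNReal.ofReal (hv (S i) x) = ∑' i, ν (S i) :=
        tsum_congr (fun i => hval _ (hS i))
    _ ≤ ν univ := tsum_measure_le_measure_univ (fun i => (hS i).nullMeasurableSet)
        (fun i j hij => (hd i j hij).aedisjoint)
    _ = ENNReal.ofReal (hv univ x) := (hval _ MeasurableSet.univ).symm
    _ ≤ 1 := by
        rw [ENNReal.ofReal_le_one]
        exact (h1 univ x MeasurableSet.univ hx).2.2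

theorem hLIC (hACT : Pool.Agent.Helper86.QA.StACT) (hCHV : Pool.Agent.Helper86.QA.StCHV)
    (hHME : Pool.Agent.Helper86.QA.StHME) (hSB3 : Pool.Agent.Helper85.QT.StSB3)
    (hANB : Pool.Agent.Helper85.QT.StANB) (hTRA : Pool.Agent.Helper85.QT.StTRA)
    (hLIA : Pool.Agent.Helper85.QT.StLIA) (hLIB : Pool.Agent.Helper85.QT.StLIB) :
    Pool.Agent.Helper85.QT.StLIC := by
  intro C3 c0 hC3 hc0
  obtain ⟨CA, m₁, hCA, hA⟩ := hLIA
  obtain ⟨CB, c, hCB, hc, hB⟩ := hLIB C3 c0 hC3 hc0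
  set C : ℝ := max (max CB m₁) (max (1 / c) (CA / c)) with hC
  have hCB' : CB ≤ C := (le_max_left _ _).trans (le_max_left _ _)
  have hm1' : m₁ ≤ C := (le_max_right _ _).trans (le_max_left _ _)
  have hc' : 1 / c ≤ C := (le_max_left _ _).trans (le_max_right _ _)
  have hCA' : CA / c ≤ C := (le_max_right _ _).trans (le_max_right _ _)
  have hC1 : 1 ≤ C := hCB.trans hCB'
  refine ⟨C, hC1, ?_⟩
  intro Γ _ ρ A B α lam M G m φ bb hann hbnd hCm x hx hsx
  have hbb : 1 ≤ bb := hbnd.1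
  have hm1 : m₁ ≤ m := by nlinarith
  have hCBm : CB * bb ≤ m := by nlinarith
  have hmpos : 0 < m := lt_of_lt_of_le zero_lt_one hann.m1
  obtain ⟨hAC1, -⟩ := hACT
  obtain ⟨-, hCH2, -, hCH4, -⟩ := hCHV
  obtain ⟨hSB, -, -⟩ := hSB3 Γ ρ A B hann.kd
  obtain ⟨-, -, -, -, -, -, -, -, -, -, -, -, -, -, hEE⟩ := hANB Γ ρ A B α lam M G m φ C3 hann
  obtain ⟨hEA, hEo⟩ := hEE 0 m le_rfl le_rfl
  obtain ⟨hMA, hMo⟩ := hEE (m / 3) (2 * m / 3) (by positivity) (by linarith)
  set E : Set ℂ := EE lam G φ 0 m with hE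
  set E' : Set ℂ := EE lam G φ (m / 3) (2 * m / 3) with hE'
  -- the points `y`
  have hy : ∀ g : Γ, ga (ρ g⁻¹) x ∈ up ∧ sb A B (ga (ρ g⁻¹) x) ≤ 0 := by
    intro g
    refine ⟨(hAC1 (ρ g⁻¹) x hx).2.1, ?_⟩
    rw [hSB g⁻¹ x hx]
    exact hsx
  -- transport
  have htr : ∀ g : Γ, MeasurableSet (mb (ρ g) '' E) ∧
      hv (mb (ρ g) '' E) x = hv E (ga (ρ g⁻¹) x) := by
    intro g
    obtain ⟨⟨t1, -⟩, t2, -⟩ := hTRA Γ ρ A B hann.kd g E hEA hEo.measurableSet
    exact ⟨t1, t2 x hx⟩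
  have htr' : ∀ g : Γ, hv (mb (ρ g) '' E') x = hv E' (ga (ρ g⁻¹) x) := by
    intro g
    obtain ⟨-, t2, -⟩ := hTRA Γ ρ A B hann.kd g E' hMA hMo.measurableSet
    exact t2 x hx
  -- disjointness
  have hdisj : ∀ q q' : Γ ⧸ Subgroup.zpowers α, q ≠ q' →
      Disjoint (mb (ρ q.out) '' E) (mb (ρ q'.out) '' E) := by
    intro q q' hqq
    rw [Set.disjoint_left]
    rintro z ⟨e1, he1, rfl⟩ ⟨e2, he2, h12⟩
    have hγ : ∀ n : ℤ, q'.out⁻¹ * q.out ≠ α ^ n := by
      intro n hn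
      apply hqq
      have h1 : ((q'.out : Γ) : Γ ⧸ Subgroup.zpowers α) = ((q.out : Γ) : Γ ⧸ Subgroup.zpowers α) := by
        rw [QuotientGroup.eq, hn]
        exact Subgroup.zpow_mem_zpowers α n
      rw [QuotientGroup.out_eq', QuotientGroup.out_eq'] at h1
      exact h1.symm
    have hd := hann.dj _ hγ
    rw [Set.disjoint_left] at hd
    have n1 := (hann.kd.mpA q.out e1 (hEA he1)).1
    have n2 := (hann.kd.mpA q'.out e2 (hEA he2)).1
    have k1 : mb (ρ (q'.out⁻¹ * q.out)) e1 = mb (ρ q'.out⁻¹) (mb (ρ q.out) e1) := by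
      rw [map_mul]
      exact (hCH2 (ρ q'.out⁻¹) (ρ q.out) e1 n1).1
    have k2 : mb (ρ q'.out⁻¹) (mb (ρ q'.out) e2) = e2 := by
      rw [← (hCH2 (ρ q'.out⁻¹) (ρ q'.out) e2 n2).1, ← map_mul, inv_mul_cancel, map_one]
      exact hCH4 e2
    have k3 : mb (ρ (q'.out⁻¹ * q.out)) e1 = e2 := by
      rw [k1, ← h12, k2]
    exact hd ⟨e1, he1, k3⟩ he2
  have hsum : ∑' q : Γ ⧸ Subgroup.zpowers α, ENNReal.ofReal (hv (mb (ρ q.out) '' E) x) ≤ 1 :=
    sum_hv hHME (fun q : Γ ⧸ Subgroup.zpowers α => mb (ρ q.out) '' E)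
      (fun q => (htr q.out).1) hdisj x hx
  have hK0 : 0 ≤ bb ^ 2 / c := by positivity
  -- first sum
  have hfirst : ∑' q : Γ ⧸ Subgroup.zpowers α,
      {T : ℝ | T ≤ 2 * c0}.indicator (fun T => ENNReal.ofReal (T ^ 2)) (Tg ρ lam q.out x) ≤
      ENNReal.ofReal (bb ^ 2 / c) := by
    calc ∑' q : Γ ⧸ Subgroup.zpowers α,
        {T : ℝ | T ≤ 2 * c0}.indicator (fun T => ENNReal.ofReal (T ^ 2)) (Tg ρ lam q.out x)
        ≤ ∑' q : Γ ⧸ Subgroup.zpowers α,
          ENNReal.ofReal (bb ^ 2 / c) * ENNReal.ofReal (hv (mb (ρ q.out) '' E) x) := by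
          refine ENNReal.tsum_le_tsum fun q => ?_
          by_cases hT : Tg ρ lam q.out x ≤ 2 * c0
          · have hmem : Tg ρ lam q.out x ∈ {T : ℝ | T ≤ 2 * c0} := hT
            rw [Set.indicator_of_mem hmem, ← ENNReal.ofReal_mul hK0, (htr q.out).2]
            apply ENNReal.ofReal_le_ofReal
            have h1 := hB Γ ρ A B α lam M G m φ bb hann hbnd hCBm _ (hy q.out).1 (hy q.out).2 hT
            have h2 : Tg ρ lam q.out x = TT lam (ga (ρ q.out⁻¹) x) := rfl
            rw [h2]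
            have h3 : TT lam (ga (ρ q.out⁻¹) x) ^ 2
                = bb ^ 2 / c * (c * TT lam (ga (ρ q.out⁻¹) x) ^ 2 / bb ^ 2) := by
              have : bb ≠ 0 := by positivity
              field_simp
            rw [h3]
            exact mul_le_mul_of_nonneg_left h1 hK0
          · have hmem : Tg ρ lam q.out x ∉ {T : ℝ | T ≤ 2 * c0} := hT
            rw [Set.indicator_of_notMem hmem]
            exact bot_le
      _ = ENNReal.ofReal (bb ^ 2 / c)
          * ∑' q : Γ ⧸ Subgroup.zpowers α, ENNReal.ofReal (hv (mb (ρ q.out) '' E) x) :=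
          ENNReal.tsum_mul_left
      _ ≤ ENNReal.ofReal (bb ^ 2 / c) * 1 := mul_le_mul' le_rfl hsum
      _ = ENNReal.ofReal (bb ^ 2 / c) := mul_one _
  refine ⟨hfirst.trans ?_, ?_⟩
  · apply ENNReal.ofReal_le_ofReal
    have h1 : bb ^ 2 / c = (1 / c) * bb ^ 2 := by ring
    rw [h1]
    exact mul_le_mul_of_nonneg_right hc' (sq_nonneg bb)
  · have hCm0 : 0 ≤ CA / m ^ 2 := by positivity
    calc ∑' q : Γ ⧸ Subgroup.zpowers α, {T : ℝ | T ≤ 2 * c0}.indicator
          (fun _ => ENNReal.ofReal (hv (mb (ρ q.out) '' E') x)) (Tg ρ lam q.out x)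
        ≤ ∑' q : Γ ⧸ Subgroup.zpowers α, ENNReal.ofReal (CA / m ^ 2) *
          {T : ℝ | T ≤ 2 * c0}.indicator (fun T => ENNReal.ofReal (T ^ 2))
            (Tg ρ lam q.out x) := by
          refine ENNReal.tsum_le_tsum fun q => ?_
          by_cases hT : Tg ρ lam q.out x ≤ 2 * c0
          · have hmem : Tg ρ lam q.out x ∈ {T : ℝ | T ≤ 2 * c0} := hT
            rw [Set.indicator_of_mem hmem, Set.indicator_of_mem hmem, ← ENNReal.ofReal_mul hCm0,
              htr' q.out]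
            apply ENNReal.ofReal_le_ofReal
            have h1 := hA Γ ρ A B α lam M G m φ C3 hann hm1 _ (hy q.out).1 (hy q.out).2
            have h2 : Tg ρ lam q.out x = TT lam (ga (ρ q.out⁻¹) x) := rfl
            rw [h2]
            refine h1.trans (le_of_eq ?_)
            ring
          · have hmem : Tg ρ lam q.out x ∉ {T : ℝ | T ≤ 2 * c0} := hT
            rw [Set.indicator_of_notMem hmem]
            exact bot_le
      _ = ENNReal.ofReal (CA / m ^ 2) * ∑' q : Γ ⧸ Subgroup.zpowers α,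
          {T : ℝ | T ≤ 2 * c0}.indicator (fun T => ENNReal.ofReal (T ^ 2))
            (Tg ρ lam q.out x) := ENNReal.tsum_mul_left
      _ ≤ ENNReal.ofReal (CA / m ^ 2) * ENNReal.ofReal (bb ^ 2 / c) :=
          mul_le_mul' le_rfl hfirst
      _ = ENNReal.ofReal ((CA / c) * (bb ^ 2 / m ^ 2)) := by
          rw [← ENNReal.ofReal_mul hCm0]
          congr 1
          ring
      _ ≤ ENNReal.ofReal (C * bb ^ 2 / m ^ 2) := by
          apply ENNReal.ofReal_le_ofReal
          rw [mul_div_assoc]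
          exact mul_le_mul_of_nonneg_right hCA' (by positivity)

end Pool.Agent.Helper82.QT
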