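import Pool.Agent.Helper88.QT.St2
import Pool.Agent.Helper85.QT.St1

/-!
# Project QT (stage 2 of QD, MP_d112a4_gt): TEL (telescoping)
-/

set_option autoImplicit false

namespace Pool.Agent.Helper82.QT

open Pool.Agent.Helper88.QT Pool.Agent.Helper85.QT Pool.Agent.Helper86.QA

theorem hTEL : Pool.Agent.Helper88.QT.StTEL := by
  classical
  intro ι S
  induction S using Finset.strongInduction with
  | H S ih =>
    intro s x hinj
    rcases S.eq_empty_or_nonempty with hE | hne
    · subst hE
      simp
    · obtain ⟨j0, hj0, hmin⟩ := S.exists_min_image s hne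
      have hlt : ∀ i ∈ S.erase j0, s j0 < s i := by
        intro i hi
        obtain ⟨h1, h2⟩ := Finset.mem_erase.1 hi
        exact lt_of_le_of_ne (hmin i h2) (fun h => h1 (hinj j0 hj0 i h2 h).symm)
      have hf0 : S.filter (fun i => s j0 < s i) = S.erase j0 := by
        ext i
        rw [Finset.mem_filter, Finset.mem_erase]
        constructor
        · rintro ⟨h1, h2⟩
          exact ⟨fun h => by rw [h] at h2; exact lt_irrefl _ h2, h1⟩
        · rintro ⟨h1, h2⟩
          exact ⟨h2, hlt i (Finset.mem_erase.2 ⟨h1, h2⟩)⟩
      have hfj : ∀ j ∈ S.erase j0, S.filter (fun i => s j < s i)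
          = (S.erase j0).filter (fun i => s j < s i) := by
        intro j hj
        ext i
        rw [Finset.mem_filter, Finset.mem_filter, Finset.mem_erase]
        constructor
        · rintro ⟨h1, h2⟩
          refine ⟨⟨fun h => ?_, h1⟩, h2⟩
          rw [h] at h2
          exact lt_asymm h2 (hlt j hj)
        · rintro ⟨⟨-, h1⟩, h2⟩
          exact ⟨h1, h2⟩
      have ih' := ih (S.erase j0) (Finset.erase_ssubset hj0) s x
        (fun i hi j hj h => hinj i (Finset.mem_of_mem_erase hi) j (Finset.mem_of_mem_erase hj) h)
      have e1 : ∑ i ∈ S, x i = x j0 + ∑ i ∈ S.erase j0, x i := (Finset.add_sum_erase S x hj0).symm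
      have e2 : ∑ j ∈ S, (Real.exp (x j) - 1) *
            Real.exp (∑ i ∈ S.filter (fun i => s j < s i), x i)
          = (Real.exp (x j0) - 1) * Real.exp (∑ i ∈ S.erase j0, x i)
            + ∑ j ∈ S.erase j0, (Real.exp (x j) - 1) *
              Real.exp (∑ i ∈ (S.erase j0).filter (fun i => s j < s i), x i) := by
        rw [← Finset.add_sum_erase S (fun j => (Real.exp (x j) - 1) *
            Real.exp (∑ i ∈ S.filter (fun i => s j < s i), x i)) hj0, hf0]
        congr 1
        refine Finset.sum_congr rfl fun j hj => ?_
        rw [hfj j hj]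
      have e3 : Real.exp (∑ i ∈ S, x i)
          = 1 + ∑ j ∈ S, (Real.exp (x j) - 1) *
            Real.exp (∑ i ∈ S.filter (fun i => s j < s i), x i) := by
        rw [e2, e1, Real.exp_add]
        linear_combination ih'
      exact e3

end Pool.Agent.Helper82.QT
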